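import Pool.Agent.TH648.ED.Main
import Pool.Agent.TH648.SH.Main

/-! Arbitrary multiplicities: the sharper windows. -/

namespace Pool.Agent.TH648.ED

open Finset Pool.Agent.TH176.Nag Pool.Agent.TH603.Sur Pool.Agent.TH603.Cut Pool.Agent.H932R3
open Pool.Agent.TH641.NW

/-- independence, arbitrary multiplicities, size `√N` -/
theorem Sur_arbN {ι : Type} [Fintype ι] {w : ι → ℕ} {N Z : ℕ} (hN : 10 ≤ N) {d : ℕ}
    (hZ : ∀ k, (∃ i, k < w i) → ∑ i, (w i - k) + N * k ≤ Z)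
    (h1 : (Z : ℝ) + N / 2 + √(N : ℝ) / 3 + 1 / 8 < √(N : ℝ) * (d + 3 / 2)) :
    Sur w (TZ d) := by
  have hnR : (10 : ℝ) ≤ N := by exact_mod_cast hN
  obtain ⟨s, hsdef⟩ : ∃ s, s = √(N : ℝ) := ⟨_, rfl⟩
  have hs : s * s = N := by rw [hsdef]; exact Real.mul_self_sqrt (by linarith)
  have hs3 : 3.1 ≤ s := by rw [hsdef]; exact Real.le_sqrt_of_sq_le (by norm_num; linarith)
  have hs0 : 0 < s := by linarith
  rw [← hsdef] at h1
  obtain ⟨η, hη0, hη⟩ : ∃ η : ℝ, 0 < η ∧ η ≤ 0.3 ∧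
      (Z : ℝ) + N / 2 + s / 3 + 1 / 8 + η * ((d + 3 / 2) / 3) ≤ s * (d + 3 / 2) := by
    have hd : 0 < ((d : ℝ) + 3 / 2) / 3 := by positivity
    refine ⟨min 0.3 ((s * (d + 3 / 2) - (Z + N / 2 + s / 3 + 1 / 8)) / ((d + 3 / 2) / 3)), ?_,
      min_le_left _ _, ?_⟩
    · exact lt_min (by norm_num) (div_pos (by linarith) hd)
    · have h2 := mul_le_mul_of_nonneg_right (min_le_right (0.3 : ℝ)
        ((s * (d + 3 / 2) - (Z + N / 2 + s / 3 + 1 / 8)) / ((d + 3 / 2) / 3))) hd.le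
      rw [div_mul_cancel₀ _ hd.ne'] at h2
      linarith
  obtain ⟨K, hKirr, hK1, hK2⟩ := exists_irrational_btwn (show 3 * s - η < 3 * s by linarith)
  have hK9 : 9 ≤ K := by linarith [hη.1]
  have hKs : K ^ 2 ≤ 9 * N := by
    have : K ^ 2 ≤ (3 * s) ^ 2 := pow_le_pow_left₀ (by linarith) hK2.le 2
    have e : (3 * s) ^ 2 = 9 * N := by rw [mul_pow, sq s, hs]; ring
    linarith
  have hmain : (Z : ℝ) + N / 2 + K / 9 + 1 / 8 ≤ K / 3 * ((d : ℝ) + 3 / 2) := by
    have h3 : (3 * s - η) / 3 * ((d : ℝ) + 3 / 2) ≤ K / 3 * (d + 3 / 2) :=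
      mul_le_mul_of_nonneg_right (by linarith) (by positivity)
    have h4 : (3 * s - η) / 3 * ((d : ℝ) + 3 / 2) = s * (d + 3 / 2) - η * ((d + 3 / 2) / 3) := by ring
    linarith [hη.2]
  refine Sur_pl keyS hK9 hKirr (n' := (N : ℝ)) (Z' := (Z : ℝ)) ?_ ?_
  · intro x j hj
    have hj0 : (0 : ℝ) ≤ j := Nat.cast_nonneg j
    have hY : 0 ≤ 3 * (d : ℝ) - K * j := by
      have h3 : K * j ≤ 3 * s * j := mul_le_mul_of_nonneg_right hK2.le hj0
      have h4 : s * (3 * s * j) < s * (3 * d) := by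
        have e : s * (3 * s * (j : ℝ)) = 3 * (N * j) := by rw [← hs]; ring
        rw [e]
        have h5 : (Z : ℝ) + N / 2 + s / 3 + 1 / 8 < s * (d + 3 / 2) := h1
        have h6 : 3 / 2 * s ≤ N / 2 + s / 3 := by rw [← hs]; nlinarith
        linarith
      have h5 := lt_of_mul_lt_mul_left h4 hs0.le
      linarith
    obtain ⟨B, hB1, hB2⟩ := low_row2 (x := x) hK9 hY
    refine ⟨B, hB1, ?_⟩
    rw [ell_row] at hB2
    have h7 : K ^ 2 / 9 * j ≤ N * j := mul_le_mul_of_nonneg_right (by linarith) hj0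
    have h8 : (Z : ℝ) - N * j - 1 < (B.card : ℝ) := by linarith
    have h9 : (((Z : ℤ) - N * j - 1 : ℤ) : ℝ) < ((B.card : ℤ) : ℝ) := by
      push_cast at h8 ⊢
      exact h8
    have h10 : (Z : ℤ) - N * j - 1 < (B.card : ℤ) := by exact_mod_cast h9
    have h11 : (Z : ℤ) - N * j ≤ (B.card : ℤ) := by omega
    exact_mod_cast h11
  · apply Sur_rows w 0
    intro k j hj
    have hk : ∃ i, k < w i := by
      by_contra hcon
      push Not at hcon
      have : ∑ i, (w i - k) = 0 := sum_eq_zero fun i _ => Nat.sub_eq_zero_of_le (hcon i)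
      omega
    have h2 := hZ k hk
    have h3 : j + N * k < Z := by omega
    refine ⟨by simp, by simp, ?_⟩
    simp only [zero_add]
    have h4 : (((j + N * k : ℕ)) : ℝ) < (Z : ℝ) := by exact_mod_cast h3
    rw [Nat.cast_add, Nat.cast_mul] at h4
    push_cast at h4 ⊢
    linarith

/-- the number of maximal multiplicities -/
theorem rows_of_max {n : ℕ} {w : Fin n → ℕ} {M N Z : ℕ} (hM : ∀ i, w i ≤ M)
    (h0 : ∑ i, w i ≤ Z) (h1 : (univ.filter fun i => w i = M).card + N * (M - 1) ≤ Z) (k : ℕ)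
    (hk : ∃ i, k < w i) : ∑ i, (w i - k) + N * k ≤ Z := by
  obtain ⟨i0, hi0⟩ := hk
  have hkM : k < M := lt_of_lt_of_le hi0 (hM i0)
  rcases Nat.eq_zero_or_pos k with hk | hk
  · subst hk
    simpa using h0
  · have hterm : ∀ i, (w i - k) * (M - 1) ≤ (M - 1 - k) * w i + k * (if w i = M then 1 else 0) := by
      intro i
      obtain ⟨e, he⟩ := Nat.exists_eq_add_of_lt hkM
      have hwi := hM i
      split_ifs with hwM
      · rw [hwM]
        have e1 : M - k = e + 1 := by omega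
        have e2 : M - 1 = k + e := by omega
        have e3 : M - 1 - k = e := by omega
        rw [e1, e3, e2, he]
        nlinarith
      · have e2 : M - 1 = k + e := by omega
        have e3 : M - 1 - k = e := by omega
        rw [e3, e2]
        rcases le_or_gt (w i) k with hle | hgt
        · rw [Nat.sub_eq_zero_of_le hle]
          nlinarith [Nat.zero_le (e * w i)]
        · obtain ⟨f, hf⟩ := Nat.exists_eq_add_of_lt hgt
          have e4 : w i - k = f + 1 := by omega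
          have e5 : f + 1 ≤ e := by omega
          rw [e4, hf]
          nlinarith
    have hsum : (∑ i, (w i - k)) * (M - 1) ≤ (M - 1 - k) * ∑ i, w i +
        k * (univ.filter fun i => w i = M).card := by
      have h3 := sum_le_sum fun i (_ : i ∈ (univ : Finset (Fin n))) => hterm i
      rw [sum_add_distrib, ← mul_sum, ← mul_sum, ← sum_mul, Finset.sum_boole] at h3
      simpa using h3
    have hM1 : 0 < M - 1 := by omega
    obtain ⟨e, he⟩ : ∃ e, M - 1 = k + e := ⟨M - 1 - k, by omega⟩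
    have e3 : M - 1 - k = e := by omega
    rw [e3] at hsum
    have h6 : e * ∑ i, w i ≤ e * Z := Nat.mul_le_mul_left _ h0
    have h7 : k * ((univ.filter fun i => w i = M).card + N * (M - 1)) ≤ k * Z :=
      Nat.mul_le_mul_left _ h1
    have h5 : (∑ i, (w i - k) + N * k) * (M - 1) ≤ Z * (M - 1) := by
      rw [he] at hsum h7 ⊢
      nlinarith
    exact Nat.le_of_mul_le_mul_right h5 hM1

/-- the sharper independence range -/
def Below2 {n : ℕ} (w : Fin n → ℕ) (d : ℕ) : Prop :=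
  ∃ N M : ℕ, 10 ≤ N ∧ (∀ i, w i ≤ M) ∧
    ∑ i, (w i : ℝ) + N / 2 + √(N : ℝ) / 3 + 1 / 8 < √(N : ℝ) * (d + 3 / 2) ∧
    ((univ.filter fun i => w i = M).card : ℝ) + N * ((M : ℝ) - 1 / 2) + √(N : ℝ) / 3 + 1 / 8 <
      √(N : ℝ) * (d + 3 / 2)

theorem Below2.sur {n : ℕ} {w : Fin n → ℕ} {d : ℕ} (h : Below2 w d) : Sur w (TZ d) := by
  obtain ⟨N, M, hN, hM, h0, h1⟩ := h
  rcases Nat.eq_zero_or_pos M with hM0 | hM0
  · refine Sur_arbN (Z := ∑ i, w i) hN ?_ (by push_cast; exact h0)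
    rintro k ⟨i, hi⟩
    have := hM i
    omega
  · refine Sur_arbN (Z := max (∑ i, w i) ((univ.filter fun i => w i = M).card + N * (M - 1))) hN
      (rows_of_max hM (le_max_left _ _) (le_max_right _ _)) ?_
    rcases le_total (∑ i, w i) ((univ.filter fun i => w i = M).card + N * (M - 1)) with h | h
    · rw [max_eq_right h]
      have e : (((univ.filter fun i => w i = M).card + N * (M - 1) : ℕ) : ℝ) =
          ((univ.filter fun i => w i = M).card : ℝ) + N * ((M : ℝ) - 1) := by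
        rw [Nat.cast_add, Nat.cast_mul, Nat.cast_sub hM0]
        push_cast; ring
      rw [e]
      linarith
    · rw [max_eq_left h]
      push_cast
      exact h0

/-- the sharper emptiness range -/
def Above2 {n : ℕ} (w : Fin n → ℕ) (d : ℕ) : Prop :=
  ∃ T : Finset (Fin n), 10 ≤ T.card ∧
    (T.card : ℝ) * ((T.card : ℝ) / 2 + 2) ≤ ∑ i ∈ T, (w i : ℝ) ∧
    √(T.card : ℝ) * (d + 11 / 6) + 9 / 8 < ∑ i ∈ T, (w i : ℝ) + (T.card : ℝ) / 2

theorem Above2.emp {n : ℕ} {w : Fin n → ℕ} {d : ℕ} (h : Above2 w d) : Emp w (TZ d) := by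
  classical
  obtain ⟨T, hT, h1, h2⟩ := h
  have e : ∑ i : {i // i ∈ T}, w i = ∑ i ∈ T, w i := Finset.sum_coe_sort T w
  have e1 : ((∑ i : {i // i ∈ T}, w i : ℕ) : ℝ) = ∑ i ∈ T, (w i : ℝ) := by
    rw [e]; push_cast; rfl
  have h3 : Emp (fun i : {i // i ∈ T} => w i) (TZ d) := by
    refine Emp_win2 keyE hT (Fintype.card_coe T) ?_ ?_
    · rw [e1]; exact h1
    · rw [e1]; linarith
  exact Emp_emb (fun i : {i // i ∈ T} => (i : Fin n)) Subtype.val_injective (fun _ => le_rfl) h3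

theorem Above2.le {n : ℕ} {w : Fin n → ℕ} {d : ℕ} (h : Above2 w d) : d ≤ ∑ i, w i + n := by
  obtain ⟨T, hT, h1, h2⟩ := h
  have hTR : (10 : ℝ) ≤ T.card := by exact_mod_cast hT
  have hs : 1 ≤ √(T.card : ℝ) := Real.one_le_sqrt.2 (by linarith)
  have hTn : (T.card : ℝ) ≤ n := by
    have := card_le_univ T
    rw [Fintype.card_fin] at this
    exact_mod_cast this
  have hle : ∑ i ∈ T, (w i : ℝ) ≤ ∑ i, (w i : ℝ) :=
    sum_le_sum_of_subset_of_nonneg (subset_univ T) fun _ _ _ => Nat.cast_nonneg _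
  have hd0 : (0 : ℝ) ≤ d := Nat.cast_nonneg d
  have h3 : (d : ℝ) ≤ ((∑ i, w i + n : ℕ) : ℝ) := by
    push_cast
    nlinarith
  exact_mod_cast h3

/-- few deviations from one number `m ≥ n / 2` -/
def Close {n : ℕ} (w : Fin n → ℕ) : Prop :=
  ∃ m : ℕ, 37 ≤ n ∧ n ≤ 2 * m ∧ (∀ i, w i ≤ m + 1) ∧
    12 * ∑ i, |(w i : ℝ) - m| + 6 * ((univ.filter fun i => w i < m).card : ℝ) + 22 ≤ 7 * √(n : ℝ)

theorem sum_abs {n m : ℕ} {w : Fin n → ℕ} (hw : ∀ i, w i ≤ m + 1) :
    ∑ i, |(w i : ℝ) - m| = ((RR m w).card : ℝ) + (JJ m w : ℕ) := by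
  rw [card_RR, JJ_eq, ← Nat.cast_add, ← sum_add_distrib]
  push_cast
  refine sum_congr rfl fun i _ => ?_
  have := hw i
  rcases lt_trichotomy (w i) m with h | h | h
  · have h2 : (w i : ℝ) < m := by exact_mod_cast h
    rw [if_neg (by omega), if_pos h, abs_of_neg (by linarith), Nat.cast_sub h.le]
    ring
  · rw [if_neg (by omega), if_neg (by omega), h]
    simp
  · have h2 : w i = m + 1 := by omega
    rw [if_pos h2, if_neg (by omega), h2]
    push_cast
    rw [add_sub_cancel_left]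
    simp

/-- **all ranges together** -/
theorem expDim_full {n : ℕ} (w : Fin n → ℕ) (L : Type) [Field L] [CharZero L] :
    ∃ F : MvPolynomial (Fin n × Fin 2) ℚ, F ≠ 0 ∧ ∀
      (P : Fin n → Fin 2 → L), MvPolynomial.aeval (fun ij : Fin n × Fin 2 => P ij.1 ij.2) F ≠ 0 →
      ∀ d, (Close w ∨ (Pool.Agent.TH648.SH.Above w d ∨ Above2 w d) ∨
        (Pool.Agent.TH648.SH.Below w d ∨ Below2 w d)) → ExpDim L w P d := by
  classical
  obtain ⟨F1, hF1, h1⟩ := expDim_two (w := w)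
    (A := fun d => Pool.Agent.TH648.SH.Above w d ∨ Above2 w d)
    (B := fun d => Pool.Agent.TH648.SH.Below w d ∨ Below2 w d) (∑ i, w i + n)
    (fun d hd => hd.elim (fun h => (Pool.Agent.TH648.SH.Above.le h).trans (Nat.le_add_right _ _))
      fun h => Above2.le h)
    (fun d hd => hd.elim (fun h => Pool.Agent.TH648.SH.Above.emp h) fun h => Above2.emp h)
    (fun d hd => hd.elim (fun h => Pool.Agent.TH648.SH.Below.sur h) fun h => Below2.sur h)
  by_cases hc : Close w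
  · obtain ⟨m, hn, hm, hw, hD⟩ := hc
    obtain ⟨F2, hF2, h2⟩ := exp_dev (L := L) hn hm hw (by
      unfold Dev
      rw [← sum_abs hw]
      exact hD)
    exact ⟨F2, hF2, fun P hP d _ => h2 P hP d⟩
  · exact ⟨F1, hF1, fun P hP d hd => h1 P hP d (hd.resolve_left hc)⟩

end Pool.Agent.TH648.ED
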