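import Pool.Agent.TH648.ED.Spec
import Pool.Agent.TH434.NW.Near
import Pool.Agent.TH641.EN.Fin

/-! The expected dimension, in every degree, at `n ≥ 37` general points whose multiplicities are
close to one number `m ≥ n / 2`. -/

namespace Pool.Agent.TH648.ED

open Finset Pool.Agent.TH176.Nag Pool.Agent.TH603.Sur Pool.Agent.TH641.UM Pool.Agent.TH641.EN
open Pool.Agent.TH648.EN Pool.Agent.TH603.Cut Pool.Agent.H932R3
open Pool.Agent.TH641.NW (keyS)

variable {n : ℕ}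

theorem card_RR (m : ℕ) (w : Fin n → ℕ) : (RR m w).card = ∑ i, if w i = m + 1 then 1 else 0 := by
  unfold RR
  rw [card_filter]

theorem JJ_eq (m : ℕ) (w : Fin n → ℕ) : JJ m w = ∑ i, if w i < m then m - w i else 0 := by
  unfold JJ LL
  rw [sum_filter]

theorem sum_w {m : ℕ} {w : Fin n → ℕ} (hw : ∀ i, w i ≤ m + 1) :
    ∑ i, w i + JJ m w = n * m + (RR m w).card := by
  rw [card_RR, JJ_eq, ← sum_add_distrib]
  have h0 : n * m = ∑ _i : Fin n, m := by simp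
  rw [h0, ← sum_add_distrib]
  refine sum_congr rfl fun i _ => ?_
  have := hw i
  split_ifs <;> omega

theorem sum_max {m : ℕ} {w : Fin n → ℕ} (hw : ∀ i, w i ≤ m + 1) :
    ∑ i, max (w i) m = n * m + (RR m w).card := by
  rw [card_RR]
  have h0 : n * m = ∑ _i : Fin n, m := by simp
  rw [h0, ← sum_add_distrib]
  refine sum_congr rfl fun i _ => ?_
  have := hw i
  split_ifs <;> omega

theorem LL_le_JJ (m : ℕ) (w : Fin n → ℕ) : (LL m w).card ≤ JJ m w := by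
  unfold JJ
  rw [card_eq_sum_ones]
  refine sum_le_sum fun i hi => ?_
  have := lt_of_LL ⟨i, hi⟩
  simp only at this
  omega

theorem le_w (m : ℕ) (w : Fin n → ℕ) (i : Fin n) : m - JJ m w ≤ w i := by
  by_cases h : w i < m
  · have hi : i ∈ LL m w := by
      unfold LL
      exact mem_filter.2 ⟨mem_univ i, h⟩
    have h1 : m - w i ≤ JJ m w := by
      unfold JJ
      exact single_le_sum (f := fun i => m - w i) (fun _ _ => Nat.zero_le _) hi
    omega
  · omega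

/-- the hypothesis: few deviations -/
def Dev (m : ℕ) (w : Fin n → ℕ) : Prop :=
  12 * (((RR m w).card : ℝ) + (JJ m w : ℕ)) + 6 * (LL m w).card + 22 ≤ 7 * √(n : ℝ)

theorem exp_dev (hn : 37 ≤ n) {m : ℕ} (hm : n ≤ 2 * m) {w : Fin n → ℕ}
    (hw : ∀ i, w i ≤ m + 1) (hD : Dev m w) {L : Type} [Field L] [CharZero L] :
    ∃ F : MvPolynomial (Fin n × Fin 2) ℚ, F ≠ 0 ∧ ∀ (P : Fin n → Fin 2 → L),
      MvPolynomial.aeval (fun ij : Fin n × Fin 2 => P ij.1 ij.2) F ≠ 0 →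
      ∀ d : ℕ, ExpDim L w P d := by
  classical
  rcases Nat.eq_zero_or_pos ((RR m w).card + (LL m w).card) with h00 | hpos
  · -- the uniform vector
    have hk := card_split hw
    have hall : ∀ i, w i = m := by
      have h1 : (univ.filter fun i => w i = m).card = (univ : Finset (Fin n)).card := by
        rw [card_univ, Fintype.card_fin]; omega
      have h2 := (Finset.card_filter_eq_iff).1 h1
      intro i
      exact h2 i (mem_univ i)
    obtain rfl : w = fun _ => m := funext hall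
    exact exp37 hn (by omega)
  obtain ⟨b, hb⟩ : ∃ b, b = (RR m w).card := ⟨_, rfl⟩
  obtain ⟨p, hp⟩ : ∃ p, p = (LL m w).card := ⟨_, rfl⟩
  obtain ⟨J, hJ⟩ : ∃ J, J = JJ m w := ⟨_, rfl⟩
  obtain ⟨s, hs⟩ : ∃ s : ℝ, s = √(n : ℝ) := ⟨_, rfl⟩
  have hnR : (37 : ℝ) ≤ n := by exact_mod_cast hn
  have hss : s * s = n := by rw [hs]; exact Real.mul_self_sqrt (by linarith)
  have hs6 : 6 ≤ s := by rw [hs]; exact Real.le_sqrt_of_sq_le (by norm_num; linarith)
  have hpJ : p ≤ J := by rw [hp, hJ]; exact LL_le_JJ m w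
  have hpJR : (p : ℝ) ≤ J := by exact_mod_cast hpJ
  have hDev : 12 * ((b : ℝ) + J) + 6 * p + 22 ≤ 7 * s := by
    rw [hb, hJ, hp, hs]; exact hD
  have hb0 : (0 : ℝ) ≤ b := Nat.cast_nonneg b
  have hp0 : (0 : ℝ) ≤ p := Nat.cast_nonneg p
  have hJ0 : (0 : ℝ) ≤ J := Nat.cast_nonneg J
  have hmR : (n : ℝ) ≤ 2 * m := by exact_mod_cast hm
  have hW : ((∑ i, w i : ℕ) : ℝ) + J = n * m + b := by
    rw [hJ, hb]; exact_mod_cast sum_w hw
  have hM : ((∑ i, max (w i) m : ℕ) : ℝ) = n * m + b := by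
    rw [hb]; exact_mod_cast sum_max hw
  obtain ⟨c0, l, hc5, hc4, hU, hl⟩ := exists_base m (n + 2 * b + 2 * p)
  obtain ⟨c, hc⟩ : ∃ c, c = 2 * b + 2 * p + c0 := ⟨_, rfl⟩
  have hcn : c + 4 ≤ n := by
    have h1 : (c : ℝ) ≤ 2 * b + 2 * p + 5 := by
      rw [hc]; push_cast
      have : (c0 : ℝ) ≤ 5 := by exact_mod_cast hc5
      linarith
    have h2 : (c : ℝ) + 4 ≤ n := by nlinarith
    exact_mod_cast h2
  obtain ⟨a, ha⟩ : ∃ a, n = 4 * a + c := ⟨(n - c) / 4, by omega⟩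
  have ha0 : 0 < a := by omega
  have hc1 : 1 ≤ c := by omega
  have hcd : c = 2 * (RR m w).card + 2 * (LL m w).card + c0 := by rw [hc, hb, hp]
  have hJm : J < m := by
    have h1 : (J : ℝ) < m := by nlinarith
    exact_mod_cast h1
  have hcrit : ∀ d : ℕ, ¬ (√(n : ℝ) * (d + 11 / 6) + 9 / 8 < ((∑ i, w i : ℕ) : ℝ) + n / 2) →
      ¬ (((∑ i, max (w i) m : ℕ) : ℝ) + n / 2 + √(n : ℝ) / 3 + 1 / 8 < √(n : ℝ) * (d + 3 / 2)) →
      ((d + 2).choose 2 ≤ Pool.Agent.TH603.Sur.cond w → Emp w (TZ d)) ∧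
      (Pool.Agent.TH603.Sur.cond w ≤ (d + 2).choose 2 → Sur w (TZ d)) := by
    intro d h1 h2
    rw [not_lt, ← hs] at h1 h2
    rw [hM] at h2
    have hc0R : (c0 : ℝ) ≤ 5 := by exact_mod_cast hc5
    have hanR : (n : ℝ) = 4 * a + (2 * b + 2 * p + c0) := by
      rw [hc] at ha
      exact_mod_cast ha
    refine double_spec hw (a := a) (c0 := c0) ha0 (by rw [← hb, ← hp, ← hc]; exact ha)
      (Sur_spec w hU (fun k hk => (hl k hk).2) hcd ha (by omega) ?_)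
      (Emp_spec w hU (fun k hk => (hl k hk).1) hc1 hcd ha (by omega) ?_)
    · rw [← hs, ← hb, ← hp]
      nlinarith
    · rw [← hs, ← hJ]
      nlinarith
  obtain ⟨X, hX⟩ : ∃ X : ℕ → Prop, X = fun d : ℕ =>
      √(n : ℝ) * ((d : ℝ) + 11 / 6) + 9 / 8 < ((∑ i, w i : ℕ) : ℝ) + n / 2 := ⟨_, rfl⟩
  obtain ⟨Y, hY⟩ : ∃ Y : ℕ → Prop, Y = fun d : ℕ =>
      ((∑ i, max (w i) m : ℕ) : ℝ) + n / 2 + √(n : ℝ) / 3 + 1 / 8 < √(n : ℝ) * ((d : ℝ) + 3 / 2) :=
    ⟨_, rfl⟩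
  have hXE : ∀ d, X d → Emp w (TZ d) := by
    intro d h
    rw [hX] at h
    refine Pool.Agent.TH434.NW.Emp_near (m := m - J) (by omega) (Fintype.card_fin n)
      (fun i => by rw [hJ]; exact le_w m w i) (by omega) ?_ h
    rw [Nat.cast_sub hJm.le, ← hs]
    nlinarith
  have hYS : ∀ d, Y d → Sur w (TZ d) := by
    intro d h
    rw [hY] at h
    exact Pool.Agent.TH641.NW.Sur_win2 (b := m) keyS (by omega) (Fintype.card_fin n) hw h
  have hmid : ∀ d, ¬ X d → ¬ Y d →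
      ((d + 2).choose 2 ≤ Pool.Agent.TH603.Sur.cond w → Emp w (TZ d)) ∧
      (Pool.Agent.TH603.Sur.cond w ≤ (d + 2).choose 2 → Sur w (TZ d)) := by
    rw [hX, hY]
    exact hcrit
  have hbd : ∀ d, ¬ Y d → d ≤ n * m + b + n + n := by
    intro d h
    rw [hY] at h
    rw [not_lt, ← hs, hM] at h
    have hd0 : (0 : ℝ) ≤ d := Nat.cast_nonneg d
    have key : (d : ℝ) ≤ ((n * m + b + n + n : ℕ) : ℝ) := by
      push_cast
      nlinarith
    exact_mod_cast key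
  have hXY : ∀ d, X d → ¬ Y d := by
    intro d h1 h2
    rw [hX] at h1
    rw [hY] at h2
    rw [← hs] at h1 h2
    rw [hM] at h2
    nlinarith
  obtain ⟨F, hF, hF'⟩ := expDim_two (w := w)
    (A := fun d => X d ∨ (¬ X d ∧ ¬ Y d ∧ (d + 2).choose 2 ≤ Pool.Agent.TH603.Sur.cond w))
    (B := fun d => Y d ∨ (¬ X d ∧ ¬ Y d ∧ Pool.Agent.TH603.Sur.cond w ≤ (d + 2).choose 2))
    (n * m + b + n + n)
    (fun d hd => hd.elim (fun h => hbd d (hXY d h)) fun h => hbd d h.2.1)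
    (fun d hd => hd.elim (hXE d) fun h => (hmid d h.1 h.2.1).1 h.2.2)
    (fun d hd => hd.elim (hYS d) fun h => (hmid d h.1 h.2.1).2 h.2.2)
  refine ⟨F, hF, fun P hP d => hF' P hP d ?_⟩
  by_cases h1 : X d
  · exact Or.inl (Or.inl h1)
  · by_cases h2 : Y d
    · exact Or.inr (Or.inl h2)
    · rcases le_total ((d + 2).choose 2) (Pool.Agent.TH603.Sur.cond w) with h3 | h3
      · exact Or.inl (Or.inr ⟨h1, h2, h3⟩)
      · exact Or.inr (Or.inr ⟨h1, h2, h3⟩)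

end Pool.Agent.TH648.ED
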