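import Pool.Agent.TH648.EN.Raised
import Pool.Agent.TH2.NU.Anti

/-! Stacks of pairs indexed by finite sets; the two ends with many spectators. -/

namespace Pool.Agent.TH648.ED

open Finset Pool.Agent.TH176.Nag Pool.Agent.TH603.Sur Pool.Agent.TH641.UM Pool.Agent.TH641.EN
open Pool.Agent.TH648.EN Pool.Agent.TH603.Cut Pool.Agent.TH641.NW

/-- a family with a given multiset of values -/
noncomputable def fam (M : Multiset ℕ) : Fin M.toList.length → ℕ := fun i => M.toList.get i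

theorem ms_fam (M : Multiset ℕ) : ms (fam M) = M := exists_fam M

theorem Uni_of_ms {ι κ : Type} [Fintype ι] [Fintype κ] {w : ι → ℕ} {v : κ → ℕ} {l : ℕ → ℕ} {N : ℕ}
    (h : ms w = ms v) (hU : Uni w l N) : Uni v l N :=
  ⟨hU.fin, by rw [hU.sum, cond_ms, cond_ms, h], Emp_of_ms h.le hU.emp⟩

theorem Uni_add {M1 M2 : Multiset ℕ} {l1 l2 : ℕ → ℕ} {N : ℕ} (h1 : Uni (fam M1) l1 N)
    (h2 : Uni (fam M2) l2 N) (p q C : ℤ) (hpq : ∀ x y : ℕ, x < l1 y ↔ p * x + q * y < C) :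
    Uni (fam (M1 + M2)) (fun k => l1 k + l2 k) N :=
  Uni_of_ms (by rw [ms_sum, ms_fam, ms_fam, ms_fam]) (h1.stack h2 p q C hpq)

/-- a stack indexed by a finite set -/
theorem Uni_finset {α : Type} (s : Finset α) (f : α → Multiset ℕ) (l : α → ℕ → ℕ) {N : ℕ}
    {M0 : Multiset ℕ} {l0 : ℕ → ℕ} (h0 : Uni (fam M0) l0 N)
    (h : ∀ i ∈ s, Uni (fam (f i)) (l i) N)
    (hh : ∀ i ∈ s, ∃ p q C : ℤ, ∀ x y : ℕ, x < l i y ↔ p * x + q * y < C) :
    Uni (fam (∑ i ∈ s, f i + M0)) (fun k => ∑ i ∈ s, l i k + l0 k) N := by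
  classical
  induction s using Finset.induction_on with
  | empty =>
    have e : (fun k => ∑ i ∈ (∅ : Finset α), l i k + l0 k) = l0 := by
      funext k
      simp
    rw [e, sum_empty, zero_add]
    exact h0
  | insert i s hi ih =>
    have h1 := ih (fun j hj => h j (mem_insert_of_mem hj)) (fun j hj => hh j (mem_insert_of_mem hj))
    obtain ⟨p, q, C, hpq⟩ := hh i (mem_insert_self i s)
    have h2 := Uni_add (h i (mem_insert_self i s)) h1 p q C hpq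
    rw [sum_insert hi, add_assoc]
    have e : (fun k => ∑ j ∈ insert i s, l j k + l0 k) =
        fun k => l i k + (∑ j ∈ s, l j k + l0 k) := by
      funext k
      rw [sum_insert hi, add_assoc]
    rw [e]
    exact h2

theorem Uni_pairM {u v N : ℕ} (h1 : v ≤ u) (h2 : u ≤ v + 1) (hN : u + v ≤ N) :
    Uni (fam ({u} + {v})) (fun k => (u + v + 1 - k) / 2) N :=
  Uni_of_ms (by rw [ms_two, ms_fam]) (Uni_pair h1 h2 hN)

/-- the remaining spectators -/
theorem exists_base (m r : ℕ) : ∃ (c : ℕ) (l : ℕ → ℕ), c ≤ 5 ∧ c % 4 = r % 4 ∧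
    Uni (fam (c • {m})) l (2 * m + 1) ∧ ∀ k, k ≤ 2 * m →
      (c : ℝ) / 4 * (2 * m - k) ≤ l k ∧ (l k : ℝ) ≤ (c : ℝ) / 4 * (2 * m - k) + 5 / 4 := by
  have h4 : r % 4 = 0 ∨ r % 4 = 1 ∨ r % 4 = 2 ∨ r % 4 = 3 := by omega
  have lowp : ∀ k, k ≤ 2 * m → 1 / 2 * ((2 : ℝ) * m - k) ≤ (((m + m + 1 - k) / 2 : ℕ) : ℝ) := by
    intro k hk
    obtain ⟨j, hj⟩ := Nat.exists_eq_add_of_le hk
    have h1 : j ≤ 2 * ((m + m + 1 - k) / 2) := by omega
    have h2 : (j : ℝ) ≤ 2 * (((m + m + 1 - k) / 2 : ℕ) : ℝ) := by exact_mod_cast h1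
    have hjR : (2 : ℝ) * m = k + j := by exact_mod_cast hj
    linarith
  have lowt : ∀ k, k ≤ 2 * m → 3 / 4 * ((2 : ℝ) * m - k) ≤ (((6 * m - 3 * k + 3) / 4 : ℕ) : ℝ) := by
    intro k hk
    obtain ⟨j, hj⟩ := Nat.exists_eq_add_of_le hk
    have h1 : 3 * j ≤ 4 * ((6 * m - 3 * k + 3) / 4) := by omega
    have h2 : (3 : ℝ) * j ≤ 4 * (((6 * m - 3 * k + 3) / 4 : ℕ) : ℝ) := by exact_mod_cast h1
    have hjR : (2 : ℝ) * m = k + j := by exact_mod_cast hj
    linarith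
  rcases h4 with h | h | h | h
  · refine ⟨0, fun _ => 0, by omega, by omega, ?_, ?_⟩
    · refine ⟨fun _ _ => rfl, ?_, ?_⟩
      · rw [cond_ms, ms_fam]
        simp
      · refine Pool.Agent.TH603.Cut.Emp_none ?_
        rintro ⟨x, y⟩ ⟨h1, h2, h3⟩
        simp only [Nat.cast_zero] at h1 h3
        omega
    · intro k hk
      simp
      norm_num
  · refine ⟨5, fun k => (m + m + 1 - k) / 2 + (6 * m - 3 * k + 3) / 4, by omega, by omega, ?_, ?_⟩
    · refine Uni_of_ms ?_ ((Uni2' m).stack (Uni3 m (by omega)) 2 1 _ (pair_half m m))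
      rw [ms_sum, ms_two, ms_fin, ms_fam]
      simp only [succ_nsmul, zero_nsmul, zero_add]
      abel
    · intro k hk
      have k1 := pair_bd' hk
      have k2 := three_bd hk
      have k3 := lowp k hk
      have k4 := lowt k hk
      push_cast at k1 k2 k3 k4 ⊢
      constructor <;> linarith
  · refine ⟨2, fun k => (m + m + 1 - k) / 2, by omega, by omega, ?_, ?_⟩
    · refine Uni_of_ms ?_ (Uni2' m)
      rw [ms_two, ms_fam]
      simp only [succ_nsmul, zero_nsmul, zero_add]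
    · intro k hk
      have k1 := pair_bd' hk
      have k3 := lowp k hk
      push_cast at k1 k3 ⊢
      constructor <;> linarith
  · refine ⟨3, fun k => (6 * m - 3 * k + 3) / 4, by omega, by omega, ?_, ?_⟩
    · refine Uni_of_ms ?_ (Uni3 m (by omega))
      rw [ms_fin, ms_fam]
    · intro k hk
      have k2 := three_bd hk
      have k4 := lowt k hk
      push_cast at k2 k4 ⊢
      constructor <;> linarith

/-- the last step of the real chain, with a smaller triangle -/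
theorem Emp_Reg_gen {κ : Type} {e : κ → ℕ} {c m J : ℕ} {α β μ ν : ℝ} (hμν : μ + ν = (c : ℝ) / 4)
    (hb : β - α < (c : ℝ) * m / 2 - J)
    (h : Emp e {p : ℤ × ℤ | 0 ≤ p.1 ∧ 0 ≤ p.2 ∧
      4 * p.1 + (c : ℤ) * p.2 + 4 * (J : ℤ) < 2 * (c : ℤ) * (m : ℤ)}) : Emp e (Reg α β μ ν) := by
  refine Emp_left ?_ h
  intro y B hB k hk
  have hne : B.Nonempty := card_pos.1 (by omega)
  obtain ⟨b0, hb0⟩ := hne
  have hy : 0 ≤ y := (hB b0 hb0).1
  have hsub : B ⊆ Finset.Icc ⌈α + μ * y⌉ ⌊β - ν * y⌋ := by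
    intro b hb
    obtain ⟨_, h2, h3⟩ := hB b hb
    rw [Finset.mem_Icc]
    exact ⟨Int.ceil_le.2 h2, Int.le_floor.2 h3⟩
  have hcard := card_le_card hsub
  rw [Int.card_Icc] at hcard
  have h1 : (k : ℤ) ≤ ⌊β - ν * y⌋ - ⌈α + μ * y⌉ := by omega
  have h2 : (k : ℝ) ≤ (⌊β - ν * y⌋ : ℝ) - ⌈α + μ * y⌉ := by exact_mod_cast h1
  have h3 := Int.floor_le (β - ν * (y : ℝ))
  have h4 := Int.le_ceil (α + μ * (y : ℝ))
  have h5 : (μ + ν) * (y : ℝ) = (c : ℝ) / 4 * y := by rw [hμν]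
  have h6 : 4 * (k : ℝ) + c * y + 4 * J < 2 * c * m := by linarith
  refine ⟨by simp, hy, ?_⟩
  simp only
  have h7 : ((4 * (k : ℤ) + (c : ℤ) * y + 4 * (J : ℤ) : ℤ) : ℝ) <
      ((2 * (c : ℤ) * (m : ℤ) : ℤ) : ℝ) := by
    push_cast
    exact h6
  exact_mod_cast h7

/-- the end `E` with a smaller triangle -/
theorem Emp_end_gen {κ : Type} [Finite κ] {e : κ → ℕ} {a c n m d J : ℕ} (hc : 1 ≤ c)
    (hn : n = 4 * a + c) (h36 : 36 ≤ n)
    (h : Emp e {p : ℤ × ℤ | 0 ≤ p.1 ∧ 0 ≤ p.2 ∧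
      4 * p.1 + (c : ℤ) * p.2 + 4 * (J : ℤ) < 2 * (c : ℤ) * (m : ℤ)})
    (hlt : √(n : ℝ) * d + 2 * J < (n : ℝ) * m + 2 * a) :
    Emp (Sum.elim (fun _ : Fin a => 2 * m + 1) e) (TZ d) := by
  have hnR : (36 : ℝ) ≤ n := by exact_mod_cast h36
  have hcR : (1 : ℝ) ≤ c := by exact_mod_cast hc
  have hnac : (n : ℝ) = 4 * a + c := by rw [hn]; push_cast; ring
  obtain ⟨s, hs⟩ : ∃ s : ℝ, s = √(n : ℝ) := ⟨_, rfl⟩
  have hss : s * s = n := by rw [hs]; exact Real.mul_self_sqrt (by linarith)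
  have hs6 : 6 ≤ s := by rw [hs]; exact Real.le_sqrt_of_sq_le (by norm_num; linarith)
  rw [← hs] at hlt
  obtain ⟨v, τ, α, h4, h5, -, h6⟩ := Pool.Agent.TH641.NW.exists_tau (3 / 2 * s) d
  refine Pool.Agent.TH641.NW.keyE _ _ d τ h4 h5 ?_
  rw [h6]
  refine Emp_regA 1 v 1 0 (by norm_num) (by norm_num) ?_ ?_ ?_ (α' := α)
    (β' := α + s * d / 2) (μ' := 3 / 2 * s) (ν' := s * (3 / 2 * s - 9) / 6) ?_ ?_ ?_ ?_ ?_
  · push_cast; linarith
  · push_cast; linarith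
  · linarith
  · push_cast; ring
  · push_cast; ring
  · push_cast; ring
  · push_cast; ring
  · refine Pool.Agent.TH648.SH.Emp_absorbs a (fun _ => 2 * m + 1) α (3 / 2 * s) ?_ ?_
    · have : 3 / 2 * s + s * (3 / 2 * s - 9) / 6 = (s * s) / 4 := by ring
      rw [this, hss, hnac]
      linarith
    · refine Emp_Reg_gen ?_ ?_ h
      · have : 3 / 2 * s - a + s * (3 / 2 * s - 9) / 6 = (s * s) / 4 - a := by ring
        rw [this, hss, hnac]
        ring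
      · have e : (((∑ _j : Fin a, (2 * m + 1) : ℕ)) : ℝ) = a * (2 * m + 1) := by simp
        rw [e]
        rw [hnac] at hlt
        linarith

end Pool.Agent.TH648.ED
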