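import Pool.Agent.TH648.ED.Multi

/-! The spectators of a vector close to `(m, …, m)`. -/

namespace Pool.Agent.TH648.ED

open Finset Pool.Agent.TH176.Nag Pool.Agent.TH603.Sur Pool.Agent.TH641.UM Pool.Agent.TH641.EN
open Pool.Agent.TH648.EN Pool.Agent.TH603.Cut
open Pool.Agent.TH763.DB (doubling_of)

variable {n : ℕ}

/-- the points of multiplicity `m + 1` -/
def RR (m : ℕ) (w : Fin n → ℕ) : Finset (Fin n) := univ.filter fun i => w i = m + 1

/-- the points of multiplicity less than `m` -/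
def LL (m : ℕ) (w : Fin n → ℕ) : Finset (Fin n) := univ.filter fun i => w i < m

/-- the lowering -/
def JJ (m : ℕ) (w : Fin n → ℕ) : ℕ := ∑ i ∈ LL m w, (m - w i)

/-- the spectators -/
abbrev Kap (m : ℕ) (w : Fin n → ℕ) (c : ℕ) : Type := (↥(RR m w) × Fin 2) ⊕ ((↥(LL m w) × Fin 2) ⊕ Fin c)

/-- the multiplicities of the spectators -/
def eE (m : ℕ) (w : Fin n → ℕ) (c : ℕ) : Kap m w c → ℕ :=
  Sum.elim (fun x => if x.2 = 0 then m + 1 else m)
    (Sum.elim (fun x => if x.2 = 0 then w x.1 else m) fun _ => m)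

/-- larger multiplicities -/
def eS (m : ℕ) (w : Fin n → ℕ) (c : ℕ) : Kap m w c → ℕ :=
  Sum.elim (fun x => if x.2 = 0 then m + 1 else m) (Sum.elim (fun _ => m) fun _ => m)

/-- smaller multiplicities -/
def eI (m : ℕ) (w : Fin n → ℕ) (c : ℕ) : Kap m w c → ℕ :=
  Sum.elim (fun _ => m) (Sum.elim (fun x => w x.1) fun _ => m)

theorem lt_of_LL {m : ℕ} {w : Fin n → ℕ} (x : ↥(LL m w)) : w x < m := by
  have := x.2
  unfold LL at this
  exact (mem_filter.1 this).2

theorem eE_le_eS {m : ℕ} {w : Fin n → ℕ} {c : ℕ} (i : Kap m w c) : eE m w c i ≤ eS m w c i := by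
  rcases i with i | i | i
  · exact le_rfl
  · have h := lt_of_LL i.1
    simp only [eE, eS, Sum.elim_inr, Sum.elim_inl]
    split_ifs <;> omega
  · exact le_rfl

theorem eI_le_eE {m : ℕ} {w : Fin n → ℕ} {c : ℕ} (i : Kap m w c) : eI m w c i ≤ eE m w c i := by
  rcases i with i | i | i
  · simp only [eE, eI, Sum.elim_inl]
    split_ifs <;> omega
  · have h := lt_of_LL i.1
    simp only [eE, eI, Sum.elim_inr, Sum.elim_inl]
    split_ifs <;> omega
  · exact le_rfl

theorem ms_prod (s : Finset (Fin n)) (g : Fin n → Fin 2 → ℕ) :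
    ms (fun x : ↥s × Fin 2 => g x.1 x.2) = ∑ i ∈ s, ({g i 0} + {g i 1}) := by
  unfold ms
  rw [Fintype.sum_prod_type, ← Finset.sum_coe_sort s]
  refine sum_congr rfl fun i _ => ?_
  rw [Fin.sum_univ_two]

theorem ms_eE (m : ℕ) (w : Fin n → ℕ) (c : ℕ) : ms (eE m w c) =
    ∑ _i ∈ RR m w, ({m + 1} + {m}) + (∑ i ∈ LL m w, ({w i} + {m}) + c • {m}) := by
  unfold eE
  rw [ms_sum, ms_sum, ms_fin]
  congr 1
  · exact ms_prod (RR m w) fun _ j => if j = 0 then m + 1 else m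
  · congr 1
    exact ms_prod (LL m w) fun i j => if j = 0 then w i else m

theorem ms_eS (m : ℕ) (w : Fin n → ℕ) (c : ℕ) : ms (eS m w c) =
    ∑ _i ∈ RR m w, ({m + 1} + {m}) + (∑ _i ∈ LL m w, ({m} + {m}) + c • {m}) := by
  unfold eS
  rw [ms_sum, ms_sum, ms_fin]
  congr 1
  · exact ms_prod (RR m w) fun _ j => if j = 0 then m + 1 else m
  · congr 1
    exact ms_prod (LL m w) fun _ _ => m

theorem ms_eI (m : ℕ) (w : Fin n → ℕ) (c : ℕ) : ms (eI m w c) =
    ∑ _i ∈ RR m w, ({m} + {m}) + (∑ i ∈ LL m w, ({w i} + {w i}) + c • {m}) := by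
  unfold eI
  rw [ms_sum, ms_sum, ms_fin]
  congr 1
  · exact ms_prod (RR m w) fun _ _ => m
  · congr 1
    exact ms_prod (LL m w) fun i _ => w i

theorem Uni_eS {m : ℕ} (w : Fin n → ℕ) {c : ℕ} {l : ℕ → ℕ}
    (h : Uni (fam (c • {m})) l (2 * m + 1)) : Uni (eS m w c)
      (fun k => ∑ _i ∈ RR m w, (m + 1 + m + 1 - k) / 2 + (∑ _i ∈ LL m w, (m + m + 1 - k) / 2 + l k))
      (2 * m + 1) := by
  refine Uni_of_ms ?_ (Uni_finset (RR m w) (fun _ => {m + 1} + {m})
    (fun _ k => (m + 1 + m + 1 - k) / 2)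
    (Uni_finset (LL m w) (fun _ => {m} + {m}) (fun _ k => (m + m + 1 - k) / 2) h
      (fun _ _ => Uni_pairM le_rfl (by omega) (by omega)) fun _ _ => ⟨2, 1, _, pair_half m m⟩)
    (fun _ _ => Uni_pairM (by omega) (by omega) (by omega)) fun _ _ => ⟨2, 1, _, pair_half (m + 1) m⟩)
  rw [ms_fam, ms_eS]

theorem Uni_eI {m : ℕ} (w : Fin n → ℕ) {c : ℕ} {l : ℕ → ℕ}
    (h : Uni (fam (c • {m})) l (2 * m + 1)) : Uni (eI m w c)
      (fun k => ∑ _i ∈ RR m w, (m + m + 1 - k) / 2 + (∑ i ∈ LL m w, (w i + w i + 1 - k) / 2 + l k))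
      (2 * m + 1) := by
  refine Uni_of_ms ?_ (Uni_finset (RR m w) (fun _ => {m} + {m})
    (fun _ k => (m + m + 1 - k) / 2)
    (Uni_finset (LL m w) (fun i => {w i} + {w i}) (fun i k => (w i + w i + 1 - k) / 2) h
      (fun i hi => Uni_pairM le_rfl (by omega) (by
        have := lt_of_LL ⟨i, hi⟩
        simp only at this
        omega)) fun i _ => ⟨2, 1, _, pair_half (w i) (w i)⟩)
    (fun _ _ => Uni_pairM (by omega) (by omega) (by omega)) fun _ _ => ⟨2, 1, _, pair_half m m⟩)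
  rw [ms_fam, ms_eI]

/-- the end `S` -/
theorem Sur_spec {m : ℕ} (w : Fin n → ℕ) {a c c0 d : ℕ} {l : ℕ → ℕ}
    (h : Uni (fam (c0 • {m})) l (2 * m + 1))
    (hl : ∀ k, k ≤ 2 * m → (l k : ℝ) ≤ (c0 : ℝ) / 4 * (2 * m - k) + 5 / 4)
    (hc : c = 2 * (RR m w).card + 2 * (LL m w).card + c0) (hn : n = 4 * a + c) (h36 : 36 ≤ n)
    (hd : (n : ℝ) * m / 2 + n / 4 + ((RR m w).card + (LL m w).card / 2 + 5 / 4) <
      √(n : ℝ) / 2 * (d + 3)) :
    Sur (Sum.elim (fun _ : Fin a => 2 * m) (eE m w c0)) (TZ d) := by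
  have h1 : Sur (Sum.elim (fun _ : Fin a => 2 * m) (eS m w c0)) (TZ d) := by
    refine Sur_end (C := (RR m w).card + (LL m w).card / 2 + 5 / 4) hn h36 (Uni_eS w h) ?_ hd
    intro k hk
    have k1 := pair_bd hk
    have k2 := pair_bd' hk
    have k3 := hl k hk
    rw [sum_const, sum_const, smul_eq_mul, smul_eq_mul, hc]
    push_cast
    push_cast at k1 k2 k3
    have e1 : (0 : ℝ) ≤ (RR m w).card := Nat.cast_nonneg _
    have e2 : (0 : ℝ) ≤ (LL m w).card := Nat.cast_nonneg _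
    have m1 := mul_le_mul_of_nonneg_left k1 e1
    have m2 := mul_le_mul_of_nonneg_left k2 e2
    push_cast at m1 m2
    linarith
  refine Pool.Agent.TH2.NU.Sur_anti ?_ h1
  rintro (i | i)
  · exact le_rfl
  · exact eE_le_eS i

/-- the end `E` -/
theorem Emp_spec {m : ℕ} (w : Fin n → ℕ) {a c c0 d : ℕ} {l : ℕ → ℕ}
    (h : Uni (fam (c0 • {m})) l (2 * m + 1))
    (hl : ∀ k, k ≤ 2 * m → (c0 : ℝ) / 4 * (2 * m - k) ≤ (l k : ℝ)) (hc1 : 1 ≤ c)
    (hc : c = 2 * (RR m w).card + 2 * (LL m w).card + c0) (hn : n = 4 * a + c) (h36 : 36 ≤ n)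
    (hd : √(n : ℝ) * d + 2 * (JJ m w : ℕ) < (n : ℝ) * m + 2 * a) :
    Emp (Sum.elim (fun _ : Fin a => 2 * m + 1) (eE m w c0)) (TZ d) := by
  have h1 : Emp (Sum.elim (fun _ : Fin a => 2 * m + 1) (eI m w c0)) (TZ d) := by
    refine Emp_end_gen (J := JJ m w) hc1 hn h36 ((Uni_eI w h).emp.mono ?_) hd
    rintro ⟨x, y⟩ ⟨k1, k2, k3⟩
    simp only at k1 k2 k3
    obtain ⟨x, rfl⟩ := Int.eq_ofNat_of_zero_le k1
    obtain ⟨y, rfl⟩ := Int.eq_ofNat_of_zero_le k2
    have hc1' : (1 : ℤ) ≤ c := by exact_mod_cast hc1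
    have hy : y ≤ 2 * m := by
      by_contra hcon
      have h3 : (2 * m + 1 : ℤ) ≤ y := by exact_mod_cast (by omega : 2 * m + 1 ≤ y)
      nlinarith
    refine ⟨k1, k2, ?_⟩
    simp only [Int.toNat_natCast]
    have h4 : (4 : ℝ) * x + c * y + 4 * (JJ m w : ℕ) < 2 * c * m := by exact_mod_cast k3
    have g1 : (1 / 2 * ((2 : ℝ) * m - y)) ≤ (((m + m + 1 - y) / 2 : ℕ) : ℝ) := by
      obtain ⟨j, hj⟩ := Nat.exists_eq_add_of_le hy
      have h1 : j ≤ 2 * ((m + m + 1 - y) / 2) := by omega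
      have h2 : (j : ℝ) ≤ 2 * (((m + m + 1 - y) / 2 : ℕ) : ℝ) := by exact_mod_cast h1
      have hjR : (2 : ℝ) * m = y + j := by exact_mod_cast hj
      linarith
    have g2 : (1 / 2 * ((2 : ℝ) * m - y)) * (LL m w).card - (JJ m w : ℕ) ≤
        ((∑ i ∈ LL m w, (w i + w i + 1 - y) / 2 : ℕ) : ℝ) := by
      unfold JJ
      push_cast
      have e : (1 / 2 * ((2 : ℝ) * m - y)) * (LL m w).card =
          ∑ _i ∈ LL m w, (1 / 2 * ((2 : ℝ) * m - y)) := by
        rw [sum_const, nsmul_eq_mul]; ring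
      rw [e, ← sum_sub_distrib]
      refine sum_le_sum fun i hi => ?_
      have hi' := lt_of_LL ⟨i, hi⟩
      simp only at hi'
      have f1 : ((m - w i : ℕ) : ℝ) = m - w i := by
        rw [Nat.cast_sub hi'.le]
      rw [f1]
      have f2 : w i + w i ≤ 2 * ((w i + w i + 1 - y) / 2) + y := by omega
      have f3 : (w i : ℝ) + w i ≤ 2 * (((w i + w i + 1 - y) / 2 : ℕ) : ℝ) + y := by exact_mod_cast f2
      push_cast at f3 ⊢
      linarith
    have g3 := hl y hy
    have g4 : (x : ℝ) < ((∑ _i ∈ RR m w, (m + m + 1 - y) / 2 +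
        (∑ i ∈ LL m w, (w i + w i + 1 - y) / 2 + l y) : ℕ) : ℝ) := by
      rw [Nat.cast_add, Nat.cast_add, sum_const, smul_eq_mul, Nat.cast_mul]
      have e1 : (0 : ℝ) ≤ (RR m w).card := Nat.cast_nonneg _
      have m1 := mul_le_mul_of_nonneg_left g1 e1
      have hcR : (c : ℝ) = 2 * (RR m w).card + 2 * (LL m w).card + c0 := by exact_mod_cast hc
      rw [hcR] at h4
      nlinarith
    exact_mod_cast g4
  refine Emp_emb id Function.injective_id ?_ h1
  rintro (i | i)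
  · exact le_rfl
  · exact eI_le_eE i

/-- the values of a vector with `w i ≤ m + 1` -/
theorem ms_split {m : ℕ} {w : Fin n → ℕ} (hw : ∀ i, w i ≤ m + 1) :
    ms w = ∑ _i ∈ RR m w, {m + 1} + ∑ i ∈ LL m w, {w i} +
      (univ.filter fun i => w i = m).card • {m} := by
  have e : ∀ i : Fin n, ({w i} : Multiset ℕ) = (if w i = m + 1 then {m + 1} else 0) +
      (if w i < m then {w i} else 0) + (if w i = m then {m} else 0) := by
    intro i
    have h := hw i
    by_cases h1 : w i = m + 1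
    · rw [if_pos h1, if_neg (by omega), if_neg (by omega), h1]; simp
    · by_cases h2 : w i < m
      · rw [if_neg h1, if_pos h2, if_neg (by omega)]; simp
      · have h3 : w i = m := by omega
        rw [if_neg h1, if_neg h2, if_pos h3, h3]; simp
  unfold ms RR LL
  rw [sum_congr rfl fun i _ => e i, sum_add_distrib, sum_add_distrib, ← sum_filter, ← sum_filter,
    ← sum_filter]
  have h2 : ∑ i ∈ univ.filter (fun i : Fin n => w i = m + 1), ({m + 1} : Multiset ℕ) =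
      ∑ _i ∈ univ.filter (fun i : Fin n => w i = m + 1), {m + 1} := rfl
  have h3 : ∑ i ∈ univ.filter (fun i : Fin n => w i = m), ({m} : Multiset ℕ) =
      (univ.filter (fun i : Fin n => w i = m)).card • {m} := sum_const _
  rw [h3]

theorem card_split {m : ℕ} {w : Fin n → ℕ} (hw : ∀ i, w i ≤ m + 1) :
    n = (RR m w).card + (LL m w).card + (univ.filter fun i => w i = m).card := by
  have e : ∀ i : Fin n, 1 = (if w i = m + 1 then 1 else 0) +
      (if w i < m then 1 else 0) + (if w i = m then 1 else 0) := by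
    intro i
    have h := hw i
    by_cases h1 : w i = m + 1
    · rw [if_pos h1, if_neg (by omega), if_neg (by omega)]
    · by_cases h2 : w i < m
      · rw [if_neg h1, if_pos h2, if_neg (by omega)]
      · have h3 : w i = m := by omega
        rw [if_neg h1, if_neg h2, if_pos h3]
  have h0 : n = ∑ _i : Fin n, 1 := by simp
  conv_lhs => rw [h0]
  rw [sum_congr rfl fun i _ => e i, sum_add_distrib, sum_add_distrib, ← sum_filter, ← sum_filter,
    ← sum_filter]
  unfold RR LL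
  simp

/-- the doubling theorem for vectors close to `(m, …, m)` -/
theorem double_spec {m : ℕ} {w : Fin n → ℕ} (hw : ∀ i, w i ≤ m + 1) {a c0 d : ℕ} (ha : 0 < a)
    (hn : n = 4 * a + (2 * (RR m w).card + 2 * (LL m w).card + c0))
    (h1 : Sur (Sum.elim (fun _ : Fin a => 2 * m) (eE m w c0)) (TZ d))
    (h2 : Emp (Sum.elim (fun _ : Fin a => 2 * m + 1) (eE m w c0)) (TZ d)) :
    ((d + 2).choose 2 ≤ Pool.Agent.TH603.Sur.cond w → Emp w (TZ d)) ∧
    (Pool.Agent.TH603.Sur.cond w ≤ (d + 2).choose 2 → Sur w (TZ d)) := by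
  rw [← coe_TF] at h1 h2
  have key := doubling_of clu (N := a) (m := m) (e := eE m w c0) ha (S := TF d)
    (fun u hu => by
      have hu' : u ∈ TZ d := by rw [← coe_TF]; exact mem_coe.2 hu
      exact ⟨hu'.1, hu'.2.1⟩) h1 h2
  have hm : ms (Sum.elim (fun _ : Fin a × (Fin 2 × Fin 2) => m) (eE m w c0)) = ms w := by
    have hk := card_split hw
    have hk2 : (univ.filter fun i => w i = m).card =
        a * (2 * 2) + ((RR m w).card + ((LL m w).card + c0)) := by omega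
    rw [ms_sum, ms_const, ms_eE, ms_split hw, hk2]
    simp only [sum_add_distrib, sum_const, add_smul, Fintype.card_prod, Fintype.card_fin]
    abel
  have hc : Pool.Agent.TH603.Sur.cond (Sum.elim (fun _ : Fin a × (Fin 2 × Fin 2) => m) (eE m w c0)) =
      Pool.Agent.TH603.Sur.cond w := by
    rw [cond_ms, cond_ms, hm]
  rw [hc, card_TF, coe_TF] at key
  exact ⟨fun h => Emp_of_ms hm.le (key.1 h), fun h => Sur_of_ms hm (key.2 h)⟩

end Pool.Agent.TH648.ED
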